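import Mathlib

/-!
# `B(2 q ^ b) = 2` for every odd prime `q` and every `b ≥ 1`

Every divisor of `x ^ (2 q ^ b) - 1` is, up to sign, a product of distinct cyclotomic polynomials
`Φ_d`, `d ∣ 2 q ^ b`. For `i ≥ 1` one has `Φ_{q^i}(x) = Φ_q(y)` and `Φ_{2q^i}(x) = Φ_{2q}(y)` with
`y = x ^ (q ^ (i-1))`. Let `g` be one of `1`, `Φ_q`, `Φ_{2q}`, `Φ_q Φ_{2q}`. The exponents of `g` are
pairwise incongruent modulo `q` and its coefficients are `0, 1, -1`; so the coefficients of
`g(x) F(x^q)` are, up to sign, coefficients of `F` (or `0`). By induction the product of the factors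
with `d ≠ 1, 2` has all its coefficients in `{0, 1, -1}`, and the multiplication with a divisor of
`x ^ 2 - 1` at most doubles the height.
-/

set_option autoImplicit false

namespace Pool.Agent.Results.MP_0523aa_nt.HeightTwo

open Polynomial Finset

/-- The height: the largest absolute value of a coefficient. -/
def height (f : ℤ[X]) : ℕ := f.support.sup (fun i => (f.coeff i).natAbs)

/-- `B(n)`: the largest height of a divisor of `x ^ n - 1` in `ℤ[x]` (the supremum of a finite set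
for `n ≥ 1`). -/
noncomputable def B (n : ℕ) : ℕ := sSup {h : ℕ | ∃ f : ℤ[X], f ∣ X ^ n - 1 ∧ h = height f}

theorem le_height (f : ℤ[X]) (i : ℕ) : (f.coeff i).natAbs ≤ height f := by
  by_cases h : f.coeff i = 0
  · rw [h]; simp
  · exact Finset.le_sup (f := fun i => (f.coeff i).natAbs) (mem_support_iff.mpr h)

theorem height_le (f : ℤ[X]) (C : ℕ) (h : ∀ i, (f.coeff i).natAbs ≤ C) : height f ≤ C :=
  Finset.sup_le fun i _ => h i

/-- All coefficients are `0, 1, -1`. -/
def Flat (f : ℤ[X]) : Prop := ∀ i, (f.coeff i).natAbs ≤ 1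

theorem flat_one : Flat 1 := by
  intro i
  rw [coeff_one]
  split_ifs <;> simp

theorem flat_expand {q : ℕ} (hq : 0 < q) {F : ℤ[X]} (hF : Flat F) : Flat (expand ℤ q F) := by
  intro i
  rw [coeff_expand hq]
  split_ifs
  · exact hF _
  · simp

/-- The main step. -/
theorem flat_mul {q : ℕ} (hq : 0 < q) {F : ℤ[X]} (hF : Flat F) (c : ℕ → ℤ) (e : ℕ → ℕ)
    (hc : ∀ k, (c k).natAbs ≤ 1)
    (he : ∀ k < q, ∀ l < q, e k ≡ e l [MOD q] → k = l) :
    Flat ((∑ k ∈ range q, C (c k) * X ^ (e k)) * expand ℤ q F) := by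
  intro m
  rw [Finset.sum_mul, finsetSum_coeff]
  have hterm : ∀ k, ((C (c k) * X ^ (e k)) * expand ℤ q F).coeff m =
      if e k ≤ m ∧ q ∣ m - e k then c k * F.coeff ((m - e k) / q) else 0 := by
    intro k
    rw [mul_assoc, coeff_C_mul, coeff_X_pow_mul', coeff_expand hq]
    by_cases h1 : e k ≤ m
    · by_cases h2 : q ∣ m - e k
      · rw [if_pos h1, if_pos h2, if_pos ⟨h1, h2⟩]
      · rw [if_pos h1, if_neg h2, if_neg (fun h => h2 h.2), mul_zero]
    · rw [if_neg h1, if_neg (fun h => h1 h.1), mul_zero]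
  simp only [hterm]
  by_cases hex : ∃ k ∈ range q, e k ≤ m ∧ q ∣ m - e k
  · obtain ⟨k, hk, h1, h2⟩ := hex
    rw [Finset.sum_eq_single_of_mem k hk]
    · rw [if_pos ⟨h1, h2⟩, Int.natAbs_mul]
      calc (c k).natAbs * (F.coeff ((m - e k) / q)).natAbs ≤ 1 * 1 :=
            Nat.mul_le_mul (hc k) (hF _)
        _ = 1 := one_mul 1
    · intro l hl hlk
      rw [if_neg]
      rintro ⟨h3, h4⟩
      apply hlk
      refine he l (mem_range.1 hl) k (mem_range.1 hk) ?_
      have h5 : e l ≡ m [MOD q] := (Nat.modEq_iff_dvd' h3).2 h4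
      have h6 : e k ≡ m [MOD q] := (Nat.modEq_iff_dvd' h1).2 h2
      exact h5.trans h6.symm
  · push Not at hex
    rw [Finset.sum_eq_zero]
    · simp
    · intro k hk
      rw [if_neg]
      rintro ⟨h1, h2⟩
      exact hex k hk h1 h2

theorem cyc_q {q : ℕ} (hq : q.Prime) :
    cyclotomic q ℤ = ∑ k ∈ range q, C ((1 : ℤ) ^ k) * X ^ k := by
  have := Fact.mk hq
  rw [cyclotomic_prime]
  simp

theorem mul_cyc_2q {q : ℕ} (hq : q.Prime) (hodd : Odd q) :
    cyclotomic (2 * q) ℤ * (X + 1) = X ^ q + 1 := by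
  have h2 : ¬ q ∣ 2 := by
    intro h
    have h3 := (Nat.prime_dvd_prime_iff_eq hq Nat.prime_two).1 h
    rw [h3] at hodd
    exact absurd hodd (by decide)
  have h := cyclotomic_expand_eq_cyclotomic_mul hq h2 ℤ
  rw [cyclotomic_two] at h
  rw [← h]
  simp

theorem cyc_2q {q : ℕ} (hq : q.Prime) (hodd : Odd q) :
    cyclotomic (2 * q) ℤ = ∑ k ∈ range q, C ((-1 : ℤ) ^ k) * X ^ k := by
  have h0 : (X + 1 : ℤ[X]) ≠ 0 := by
    rw [← cyclotomic_two]
    exact cyclotomic_ne_zero 2 ℤ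
  apply mul_right_cancel₀ h0
  rw [mul_cyc_2q hq hodd]
  have h1 : (∑ k ∈ range q, C ((-1 : ℤ) ^ k) * X ^ k) = ∑ k ∈ range q, (-X : ℤ[X]) ^ k := by
    apply sum_congr rfl
    intro k _
    rw [C_pow, ← mul_pow]
    simp
  have h2 := geom_sum_mul (-X : ℤ[X]) q
  rw [h1]
  have h3 : (-X : ℤ[X]) ^ q = - X ^ q := hodd.neg_pow X
  rw [h3] at h2
  linear_combination h2

theorem cyc_both {q : ℕ} (hq : q.Prime) (hodd : Odd q) :
    cyclotomic q ℤ * cyclotomic (2 * q) ℤ = ∑ k ∈ range q, C ((1 : ℤ) ^ k) * X ^ (2 * k) := by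
  have := Fact.mk hq
  have h0 : (X ^ 2 - 1 : ℤ[X]) ≠ 0 := (monic_X_pow_sub_C (1 : ℤ) (by norm_num : (2 : ℕ) ≠ 0)).ne_zero
  apply mul_right_cancel₀ h0
  have h1 : (∑ k ∈ range q, C ((1 : ℤ) ^ k) * X ^ (2 * k)) = ∑ k ∈ range q, (X ^ 2 : ℤ[X]) ^ k := by
    apply sum_congr rfl
    intro k _
    rw [one_pow, C_1, one_mul, pow_mul]
  rw [h1, geom_sum_mul]
  have h2 : cyclotomic q ℤ * (X - 1) = X ^ q - 1 := by
    rw [cyclotomic_prime, geom_sum_mul]
  have h3 := mul_cyc_2q hq hodd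
  calc cyclotomic q ℤ * cyclotomic (2 * q) ℤ * (X ^ 2 - 1)
      = (cyclotomic q ℤ * (X - 1)) * (cyclotomic (2 * q) ℤ * (X + 1)) := by ring
    _ = (X ^ q - 1) * (X ^ q + 1) := by rw [h2, h3]
    _ = (X ^ 2) ^ q - 1 := by rw [← pow_mul, mul_comm 2 q, pow_mul]; ring

/-- The factor at the level `i + 1`. -/
noncomputable def lev (q : ℕ) (s t : Prop) [Decidable s] [Decidable t] (i : ℕ) : ℤ[X] :=
  (if s then cyclotomic (q ^ (i + 1)) ℤ else 1) * (if t then cyclotomic (2 * q ^ (i + 1)) ℤ else 1)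

theorem lev_succ {q : ℕ} (hq : q.Prime) (s t : Prop) [Decidable s] [Decidable t] (i : ℕ) :
    lev q s t (i + 1) = expand ℤ q (lev q s t i) := by
  unfold lev
  rw [map_mul]
  congr 1
  · split_ifs
    · rw [cyclotomic_expand_eq_cyclotomic hq (dvd_pow_self q (Nat.succ_ne_zero i)), ← pow_succ]
    · rw [map_one]
  · split_ifs
    · rw [cyclotomic_expand_eq_cyclotomic hq
        ((dvd_pow_self q (Nat.succ_ne_zero i)).mul_left 2), mul_assoc, ← pow_succ]
    · rw [map_one]

theorem flat_lev {q : ℕ} (hq : q.Prime) (hodd : Odd q) (s t : Prop) [Decidable s] [Decidable t]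
    {F : ℤ[X]} (hF : Flat F) : Flat (lev q s t 0 * expand ℤ q F) := by
  unfold lev
  rw [zero_add, pow_one]
  have hid : ∀ k < q, ∀ l < q, k ≡ l [MOD q] → k = l := by
    intro k hk l hl h
    exact Nat.ModEq.eq_of_lt_of_lt h hk hl
  by_cases hs : s <;> by_cases ht : t
  · rw [if_pos hs, if_pos ht, cyc_both hq hodd]
    apply flat_mul hq.pos hF (fun k => (1 : ℤ) ^ k) (fun k => 2 * k)
    · intro k
      simp
    · intro k hk l hl h
      apply hid k hk l hl
      exact Nat.ModEq.cancel_left_of_coprime (Nat.coprime_two_right.2 hodd) h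
  · rw [if_pos hs, if_neg ht, mul_one, cyc_q hq]
    apply flat_mul hq.pos hF (fun k => (1 : ℤ) ^ k) (fun k => k)
    · intro k
      simp
    · exact hid
  · rw [if_neg hs, if_pos ht, one_mul, cyc_2q hq hodd]
    apply flat_mul hq.pos hF (fun k => (-1 : ℤ) ^ k) (fun k => k)
    · intro k
      rw [Int.natAbs_pow]
      simp
    · exact hid
  · rw [if_neg hs, if_neg ht, one_mul, one_mul]
    exact flat_expand hq.pos hF

theorem flat_prod {q : ℕ} (hq : q.Prime) (hodd : Odd q) (b : ℕ) :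
    ∀ (s t : ℕ → Prop) [DecidablePred s] [DecidablePred t],
      Flat (∏ i ∈ range b, lev q (s i) (t i) i) := by
  induction b with
  | zero =>
    intro s t _ _
    rw [Finset.prod_range_zero]
    exact flat_one
  | succ b ih =>
    intro s t _ _
    rw [Finset.prod_range_succ', mul_comm]
    have h : (∏ i ∈ range b, lev q (s (i + 1)) (t (i + 1)) (i + 1)) =
        expand ℤ q (∏ i ∈ range b, lev q (s (i + 1)) (t (i + 1)) i) := by
      rw [map_prod]
      apply prod_congr rfl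
      intro i _
      exact lev_succ hq _ _ i
    rw [h]
    exact flat_lev hq hodd _ _ (ih (fun i => s (i + 1)) (fun i => t (i + 1)))

/-- Divisors of products of primes. -/
theorem dvd_prod_primes {ι : Type} [DecidableEq ι] (p : ι → ℤ[X]) (D : Finset ι)
    (hp : ∀ d ∈ D, Prime (p d)) :
    ∀ f : ℤ[X], f ∣ ∏ d ∈ D, p d → ∃ S ⊆ D, Associated f (∏ d ∈ S, p d) := by
  induction D using Finset.induction_on with
  | empty =>
    intro f hf
    rw [prod_empty] at hf
    exact ⟨∅, subset_refl _, by rw [prod_empty]; exact associated_one_iff_isUnit.2 (isUnit_of_dvd_one hf)⟩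
  | insert a D ha ih =>
    intro f hf
    rw [prod_insert ha] at hf
    have hpa : Prime (p a) := hp a (mem_insert_self a D)
    have ih' := ih (fun d hd => hp d (mem_insert_of_mem hd))
    by_cases h : p a ∣ f
    · obtain ⟨g, rfl⟩ := h
      have hg : g ∣ ∏ d ∈ D, p d := (mul_dvd_mul_iff_left hpa.ne_zero).1 hf
      obtain ⟨S, hS, hS2⟩ := ih' g hg
      refine ⟨insert a S, insert_subset_insert a hS, ?_⟩
      rw [prod_insert (fun h => ha (hS h))]
      exact hS2.mul_left (p a)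
    · obtain ⟨g, hg⟩ := hf
      have h1 : p a ∣ f * g := ⟨_, hg.symm⟩
      obtain ⟨g', rfl⟩ := (hpa.dvd_or_dvd h1).resolve_left h
      have h2 : f ∣ ∏ d ∈ D, p d := by
        refine ⟨g', ?_⟩
        apply mul_left_cancel₀ hpa.ne_zero
        rw [hg]
        ring
      obtain ⟨S, hS, hS2⟩ := ih' f h2
      exact ⟨S, hS.trans (subset_insert a D), hS2⟩

/-- The divisors of `2 q ^ b`. -/
theorem divisors_eq {q : ℕ} (hq : q.Prime) (b : ℕ) :
    (2 * q ^ b).divisors =
      (range (b + 1)).image (fun i => q ^ i) ∪ (range (b + 1)).image (fun i => 2 * q ^ i) := by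
  rw [Nat.divisors_mul, Nat.divisors_prime_pow hq, Nat.Prime.divisors Nat.prime_two]
  ext d
  simp only [Finset.mem_mul, mem_insert, mem_singleton, mem_map, mem_range, mem_union, mem_image,
    Function.Embedding.coeFn_mk]
  constructor
  · rintro ⟨x, hx, y, ⟨i, hi, rfl⟩, rfl⟩
    rcases hx with rfl | rfl
    · left; exact ⟨i, hi, (one_mul _).symm⟩
    · right; exact ⟨i, hi, rfl⟩
  · rintro (⟨i, hi, rfl⟩ | ⟨i, hi, rfl⟩)
    · exact ⟨1, Or.inl rfl, q ^ i, ⟨i, hi, rfl⟩, one_mul _⟩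
    · exact ⟨2, Or.inr rfl, q ^ i, ⟨i, hi, rfl⟩, rfl⟩

theorem disj {q : ℕ} (hodd : Odd q) (b : ℕ) :
    Disjoint ((range (b + 1)).image (fun i => q ^ i))
      ((range (b + 1)).image (fun i => 2 * q ^ i)) := by
  rw [Finset.disjoint_left]
  intro x hx hx2
  obtain ⟨i, _, rfl⟩ := mem_image.1 hx
  obtain ⟨j, _, h⟩ := mem_image.1 hx2
  have h1 : Odd (q ^ i) := hodd.pow
  have h' : 2 * q ^ j = q ^ i := h
  rw [← h'] at h1
  exact absurd h1 (by simp)

theorem prod_eq {q : ℕ} (hq : q.Prime) (hodd : Odd q) (b : ℕ) (S : Finset ℕ)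
    (hS : S ⊆ (2 * q ^ b).divisors) :
    ∏ d ∈ S, cyclotomic d ℤ = ((if 1 ∈ S then (X - 1 : ℤ[X]) else 1) *
      (if 2 ∈ S then (X + 1 : ℤ[X]) else 1)) *
        ∏ i ∈ range b, lev q (q ^ (i + 1) ∈ S) (2 * q ^ (i + 1) ∈ S) i := by
  have h1 : S = (2 * q ^ b).divisors.filter (fun d => d ∈ S) := by
    ext d
    rw [mem_filter]
    exact ⟨fun h => ⟨hS h, h⟩, fun h => h.2⟩
  have hi1 : Set.InjOn (fun i => q ^ i) (range (b + 1) : Finset ℕ) :=
    fun i _ j _ h => Nat.pow_right_injective hq.two_le h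
  have hi2 : Set.InjOn (fun i => 2 * q ^ i) (range (b + 1) : Finset ℕ) :=
    fun i _ j _ h => Nat.pow_right_injective hq.two_le (Nat.eq_of_mul_eq_mul_left two_pos h)
  have h2 : ∏ d ∈ S, cyclotomic d ℤ =
      ∏ d ∈ (2 * q ^ b).divisors, if d ∈ S then cyclotomic d ℤ else 1 := by
    rw [← prod_filter, ← h1]
  rw [h2, divisors_eq hq, prod_union (disj hodd b), prod_image hi1, prod_image hi2,
    prod_range_succ', prod_range_succ']
  unfold lev
  rw [prod_mul_distrib]
  simp only [pow_zero, mul_one, cyclotomic_one, cyclotomic_two]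
  ring

/-- The level zero. -/
theorem level_zero {G : ℤ[X]} (hG : Flat G) (s t : Prop) [Decidable s] [Decidable t] (i : ℕ) :
    (((if s then (X - 1 : ℤ[X]) else 1) * (if t then (X + 1 : ℤ[X]) else 1) * G).coeff i).natAbs
      ≤ 2 := by
  have h4 := hG i
  have h5 := hG (i - 2)
  have h6 := hG (i - 1)
  by_cases h1 : s <;> by_cases h2 : t
  · rw [if_pos h1, if_pos h2]
    have h3 : (X - 1 : ℤ[X]) * (X + 1) * G = X ^ 2 * G - G := by ring
    rw [h3, coeff_sub, coeff_X_pow_mul']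
    split_ifs <;> omega
  · rw [if_pos h1, if_neg h2]
    have h3 : (X - 1 : ℤ[X]) * 1 * G = X ^ 1 * G - G := by ring
    rw [h3, coeff_sub, coeff_X_pow_mul']
    split_ifs <;> omega
  · rw [if_neg h1, if_pos h2]
    have h3 : (1 : ℤ[X]) * (X + 1) * G = X ^ 1 * G + G := by ring
    rw [h3, coeff_add, coeff_X_pow_mul']
    split_ifs <;> omega
  · rw [if_neg h1, if_neg h2, one_mul, one_mul]
    exact h4.trans (by norm_num)

/-- Associated polynomials have coefficients of the same absolute value. -/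
theorem natAbs_coeff_of_associated {f g : ℤ[X]} (h : Associated f g) (i : ℕ) :
    (f.coeff i).natAbs = (g.coeff i).natAbs := by
  obtain ⟨u, hu⟩ := h
  obtain ⟨r, hr, hr2⟩ := Polynomial.isUnit_iff.1 u.isUnit
  rw [← hu, ← hr2, mul_comm, coeff_C_mul, Int.natAbs_mul, Int.isUnit_iff_natAbs_eq.1 hr, one_mul]

/-- The upper bound. -/
theorem upper {q : ℕ} (hq : q.Prime) (hodd : Odd q) (b : ℕ) (f : ℤ[X])
    (hf : f ∣ X ^ (2 * q ^ b) - 1) : height f ≤ 2 := by
  have hpos : 0 < 2 * q ^ b := Nat.mul_pos two_pos (pow_pos hq.pos b)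
  rw [← prod_cyclotomic_eq_X_pow_sub_one hpos ℤ] at hf
  obtain ⟨S, hS, hu⟩ := dvd_prod_primes (fun d => cyclotomic d ℤ) _
    (fun d hd => (cyclotomic.irreducible (Nat.pos_of_mem_divisors hd)).prime) f hf
  apply height_le
  intro i
  rw [natAbs_coeff_of_associated hu i, prod_eq hq hodd b S hS]
  exact level_zero (flat_prod hq hodd b (fun i => q ^ (i + 1) ∈ S)
    (fun i => 2 * q ^ (i + 1) ∈ S)) _ _ i

/-- For every odd prime `q` and every positive integer `b` the largest height of a divisor of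
`x ^ (2 q ^ b) - 1` is `2`. -/
theorem result : ∀ q b : ℕ, q.Prime → Odd q → 1 ≤ b → B (2 * q ^ b) = 2 := by
  intro q b hq hodd hb
  apply le_antisymm
  · apply csSup_le
    · exact ⟨_, 1, one_dvd _, rfl⟩
    · rintro h ⟨f, hf, rfl⟩
      exact upper hq hodd b f hf
  · have hbdd : BddAbove {h : ℕ | ∃ f : ℤ[X], f ∣ X ^ (2 * q ^ b) - 1 ∧ h = height f} := by
      refine ⟨2, ?_⟩
      rintro h ⟨f, hf, rfl⟩
      exact upper hq hodd b f hf
    have hq3 : 3 ≤ q := by
      rcases hodd with ⟨k, hk⟩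
      have := hq.two_le
      omega
    have hdvd : cyclotomic 2 ℤ * cyclotomic q ℤ ∣ X ^ (2 * q ^ b) - 1 := by
      have hpos : 0 < 2 * q ^ b := Nat.mul_pos two_pos (pow_pos hq.pos b)
      rw [← prod_cyclotomic_eq_X_pow_sub_one hpos ℤ]
      have hsub : ({2, q} : Finset ℕ) ⊆ (2 * q ^ b).divisors := by
        intro d hd
        rw [mem_insert, mem_singleton] at hd
        rw [Nat.mem_divisors]
        refine ⟨?_, hpos.ne'⟩
        rcases hd with rfl | rfl
        · exact dvd_mul_right _ _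
        · exact (dvd_pow_self _ (by omega)).mul_left 2
      have h := prod_dvd_prod_of_subset _ _ (fun d => cyclotomic d ℤ) hsub
      rwa [prod_pair (by omega)] at h
    have hle : height (cyclotomic 2 ℤ * cyclotomic q ℤ) ≤ B (2 * q ^ b) :=
      le_csSup hbdd ⟨_, hdvd, rfl⟩
    refine le_trans ?_ hle
    have hc := le_height (cyclotomic 2 ℤ * cyclotomic q ℤ) 1
    refine le_trans (le_of_eq ?_) hc
    have := Fact.mk hq
    have h3 : (X + 1 : ℤ[X]) * cyclotomic q ℤ = X ^ 1 * cyclotomic q ℤ + cyclotomic q ℤ := by ring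
    rw [cyclotomic_two, h3, coeff_add, coeff_X_pow_mul', cyclotomic_prime]
    have h4 : ∀ j < q, (∑ i ∈ range q, (X : ℤ[X]) ^ i).coeff j = 1 := by
      intro j hj
      rw [finsetSum_coeff]
      simp only [coeff_X_pow]
      rw [Finset.sum_ite_eq, if_pos (mem_range.2 hj)]
    rw [h4 1 (by omega), h4 (1 - 1) (by omega)]
    rfl

end Pool.Agent.Results.MP_0523aa_nt.HeightTwo
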